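import Pool.Agent.MP_74ce82_an.H95.Count
import Pool.Agent.MP_74ce82_an.H95.Bounds

/-!
The threshold `c_n`, in the algebraic description by the roots of
`D_{2n}(z; c) = ∏_{j=0}^{2n-1} (z - j) + (-1)^n c`, satisfies
`2 n² / π < c_n ^ (1 / (2 n)) < n / sin (π / (2 n))` for every `n ≥ 1`.
-/

open Polynomial

namespace Pool.Agent.Results.MP_74ce82_an.Bounds

open Pool.Agent.MP_74ce82_an.H95 in
theorem result (n : ℕ) (hn : 1 ≤ n) :
    ∃ cn : ℝ,
      {c : ℝ | Multiset.card (Multiset.filter (fun z : ℂ => -1 / 2 < z.re)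
          (∏ j ∈ Finset.range (2 * n), (X - C (j : ℂ)) + C ((-1) ^ n * (c : ℂ))).roots) = n} =
        Set.Ici cn ∧
      0 < cn ∧
      2 * (n : ℝ) ^ 2 / Real.pi < cn ^ (1 / (2 * n : ℝ)) ∧
      cn ^ (1 / (2 * n : ℝ)) < n / Real.sin (Real.pi / (2 * n)) := by
  obtain ⟨y, hy, hT⟩ := exists_yn hn
  refine ⟨Md (2 * n) (1 / 2) y, ?_, Md_pos _ (by norm_num) _, lower hn hy hT, upper hn hT⟩
  ext c
  exact threshold hn hy hT c

end Pool.Agent.Results.MP_74ce82_an.Bounds
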